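import Pool.Agent.H59.Ex.Final

set_option autoImplicit false

namespace Pool.Agent.Results.MP_eba27c_nt.ExoticClassification

/-- The maps `μ_c → μ_{cd}`. -/
abbrev Emb (c d : ℕ) : Type := rootsOfUnity c ℂ → rootsOfUnity (c * d) ℂ

/-- `ℓ : μ_c → μ_{cd}` is exotic: it is injective and there is a Moebius transformation
`T z = (α z + β) / (γ z + δ)` with `T ζ = ℓ ζ` for all `ζ ∈ μ_c` and `T 0 = β / δ` different
from `0` and `∞`. -/
def Exotic {c d : ℕ} (ℓ : Emb c d) : Prop :=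
  Function.Injective ℓ ∧ ∃ α β γ δ : ℂ, α * δ - β * γ ≠ 0 ∧ β ≠ 0 ∧ δ ≠ 0 ∧
    ∀ ζ : rootsOfUnity c ℂ, γ * ((ζ : ℂˣ) : ℂ) + δ ≠ 0 ∧
      (α * ((ζ : ℂˣ) : ℂ) + β) / (γ * ((ζ : ℂˣ) : ℂ) + δ) = ((ℓ ζ : ℂˣ) : ℂ)

/-- The elementary operations: rotation of the target, rotation of the source, inversion. -/
inductive Step {c d : ℕ} : Emb c d → Emb c d → Prop
  | target (ℓ : Emb c d) (η : rootsOfUnity (c * d) ℂ) : Step ℓ (fun ζ => η * ℓ ζ)
  | source (ℓ : Emb c d) (ω : rootsOfUnity c ℂ) : Step ℓ (fun ζ => ℓ (ω * ζ))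
  | inversion (ℓ : Emb c d) : Step ℓ (fun ζ => (ℓ ζ)⁻¹)

/-- `ℓ'` is obtained from `ℓ` by a composition of elementary operations. -/
def Equivalent {c d : ℕ} (ℓ ℓ' : Emb c d) : Prop := Relation.ReflTransGen Step ℓ ℓ'

/-- `ℓ` sends `exp (2 π i j / c)` to `exp (2 π i t_j / (c d))` for `0 ≤ j < c`, where
`t = [t_0, …, t_{c-1}]`. -/
def HasExponents {c d : ℕ} (ℓ : Emb c d) (t : List ℕ) : Prop :=
  t.length = c ∧ ∀ (ζ : rootsOfUnity c ℂ) (j : ℕ), j < c →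
    ((ζ : ℂˣ) : ℂ) = Complex.exp (2 * Real.pi * Complex.I * ((j : ℂ) / (c : ℂ))) →
    ((ℓ ζ : ℂˣ) : ℂ) =
      Complex.exp (2 * Real.pi * Complex.I * (((t.getD j 0 : ℕ) : ℂ) / ((c * d : ℕ) : ℂ)))

/-- The normal forms (a one-parameter family for `c = 4`, one sporadic example for `c = 4`, `3 ∣ d`,
one for `c = 5`, `2 ∣ d`, and four more for `c = 5`, `6 ∣ d`; none for `c ≥ 6`). -/
def Standard (c d : ℕ) : Set (List ℕ) :=
  {t | (c = 4 ∧ ∃ a, 0 < a ∧ a < d ∧ t = [0, a, 2 * a, 2 * d + a]) ∨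
    (c = 4 ∧ ∃ m, 0 < m ∧ d = 3 * m ∧ t = [0, m, 3 * m, 10 * m]) ∨
    (c = 5 ∧ ∃ m, 0 < m ∧ d = 2 * m ∧ t = [0, m, 2 * m, 4 * m, 8 * m]) ∨
    (c = 5 ∧ ∃ m, 0 < m ∧ d = 6 * m ∧
      (t = [0, m, 2 * m, 5 * m, 27 * m] ∨ t = [0, 2 * m, 4 * m, 9 * m, 25 * m] ∨
       t = [0, 2 * m, 5 * m, 16 * m, 27 * m] ∨ t = [0, 4 * m, 9 * m, 17 * m, 25 * m]))}

open Pool.Agent.H59.Ex

section
variable {c d : ℕ}

/-- the powers of the standard root of unity -/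
noncomputable def zc (c : ℕ) [NeZero c] : rootsOfUnity c ℂ :=
  (pr_prim (NeZero.ne c)).toRootsOfUnity

theorem zc_val (c : ℕ) [NeZero c] (j : ℕ) : (((zc c ^ j : rootsOfUnity c ℂ) : ℂˣ) : ℂ) = pr c ^ j := by
  rw [SubmonoidClass.coe_pow, Units.val_pow_eq_pow_val]
  rfl

theorem exists_zc [NeZero c] (ζ : rootsOfUnity c ℂ) : ∃ j < c, ζ = zc c ^ j := by
  have h : ((ζ : ℂˣ) : ℂ) ^ c = 1 := by
    have := ζ.2
    rw [mem_rootsOfUnity] at this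
    have h2 := congrArg (fun u : ℂˣ => (u : ℂ)) this
    simpa using h2
  obtain ⟨j, hj, hj'⟩ := (pr_prim (NeZero.ne c)).eq_pow_of_pow_eq_one h
  refine ⟨j, hj, ?_⟩
  apply Subtype.ext
  apply Units.ext
  rw [zc_val, hj']

/-- the sequence of values -/
noncomputable def W [NeZero c] (ℓ : Emb c d) (j : ℕ) : ℂ := ((ℓ (zc c ^ j) : ℂˣ) : ℂ)

theorem W_pow [NeZero c] (ℓ : Emb c d) (j : ℕ) : W ℓ j ^ (c * d) = 1 := by
  have := (ℓ (zc c ^ j)).2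
  rw [mem_rootsOfUnity] at this
  have h2 := congrArg (fun u : ℂˣ => (u : ℂ)) this
  simpa [W] using h2

theorem W_per [NeZero c] (ℓ : Emb c d) (j : ℕ) : W ℓ (j + c) = W ℓ j := by
  have h : zc c ^ (j + c) = zc c ^ j := by
    apply Subtype.ext
    apply Units.ext
    rw [zc_val, zc_val, pow_add, (pr_prim (NeZero.ne c)).pow_eq_one, mul_one]
  rw [W, h, W]

theorem good_of_exotic [NeZero c] (hd : 0 < d) (ℓ : Emb c d) (h : Exotic ℓ) : Good c (W ℓ) := by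
  obtain ⟨-, α, β, γ, δ, h1, h2, h3, h4⟩ := h
  refine ⟨⟨c * d, Nat.mul_pos (Nat.pos_of_ne_zero (NeZero.ne c)) hd, W_pow ℓ⟩,
    ⟨α, β, γ, δ, h1, h2, h3, fun j => ?_⟩⟩
  have h5 := h4 (zc c ^ j)
  rw [zc_val] at h5
  refine ⟨h5.1, ?_⟩
  rw [W, ← h5.2, div_mul_cancel₀ _ h5.1]

theorem hasExponents_iff [NeZero c] (ℓ : Emb c d) (t : List ℕ) :
    HasExponents ℓ t ↔ t.length = c ∧ ∀ j < c, W ℓ j = pr (c * d) ^ (t.getD j 0) := by
  have e1 : ∀ j n : ℕ, Complex.exp (2 * Real.pi * Complex.I * ((j : ℂ) / (n : ℂ))) = pr n ^ j := by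
    intro j n
    rw [pr, ← Complex.exp_nat_mul]
    congr 1
    ring
  unfold HasExponents
  simp only [e1]
  constructor
  · rintro ⟨h1, h2⟩
    refine ⟨h1, fun j hj => ?_⟩
    exact h2 _ j hj (zc_val c j)
  · rintro ⟨h1, h2⟩
    refine ⟨h1, fun ζ j hj h3 => ?_⟩
    have : ζ = zc c ^ j := by
      apply Subtype.ext
      apply Units.ext
      rw [zc_val, h3]
    rw [this]
    exact h2 j hj

theorem srel_of_step [NeZero c] {ℓ ℓ' : Emb c d} (h : Step ℓ ℓ') : SRel (c * d) (W ℓ) (W ℓ') := by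
  cases h with
  | target η =>
    refine ⟨((η : ℂˣ) : ℂ), 0, ?_, Or.inl fun j => ?_⟩
    · have := η.2
      rw [mem_rootsOfUnity] at this
      have h2 := congrArg (fun u : ℂˣ => (u : ℂ)) this
      simpa using h2
    · simp [W]
  | source ω =>
    obtain ⟨s, -, rfl⟩ := exists_zc ω
    refine ⟨1, s, one_pow _, Or.inl fun j => ?_⟩
    rw [one_mul, W, W, ← pow_add, add_comm s j]
  | inversion =>
    refine ⟨1, 0, one_pow _, Or.inr fun j => ?_⟩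
    simp [W]

theorem srel_of_equivalent [NeZero c] {ℓ ℓ' : Emb c d} (h : Equivalent ℓ ℓ') :
    SRel (c * d) (W ℓ) (W ℓ') := by
  induction h with
  | refl => exact SRel.refl _ _
  | tail _ h2 ih => exact ih.trans (srel_of_step h2)

theorem exists_of_srel [NeZero c] (ℓ : Emb c d) (hcd : c * d ≠ 0) {v : ℕ → ℂ}
    (h : SRel (c * d) (W ℓ) v) : ∃ ℓ' : Emb c d, Equivalent ℓ ℓ' ∧ W ℓ' = v := by
  obtain ⟨κ, s, hκ, h⟩ := h
  obtain ⟨η, hη⟩ : ∃ η : rootsOfUnity (c * d) ℂ, ((η : ℂˣ) : ℂ) = κ := by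
    have : NeZero (c * d) := ⟨hcd⟩
    exact ⟨rootsOfUnity.mkOfPowEq κ hκ, rfl⟩
  rcases h with h | h
  · refine ⟨fun ζ => η * ℓ (zc c ^ s * ζ), ?_, ?_⟩
    · exact (Relation.ReflTransGen.single (Step.source ℓ (zc c ^ s))).tail
        (Step.target (fun ζ => ℓ (zc c ^ s * ζ)) η)
    · funext j
      rw [h j, ← hη, W, W, ← pow_add, add_comm s j]
      simp
  · refine ⟨fun ζ => η * (ℓ (zc c ^ s * ζ))⁻¹, ?_, ?_⟩
    · exact ((Relation.ReflTransGen.single (Step.source ℓ (zc c ^ s))).tail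
        (Step.inversion (fun ζ => ℓ (zc c ^ s * ζ)))).tail
        (Step.target (fun ζ => (ℓ (zc c ^ s * ζ))⁻¹) η)
    · funext j
      rw [h j, ← hη, W, W, ← pow_add, add_comm s j]
      simp

theorem exotic_of_exists [NeZero c] {t : List ℕ} (hcd : c * d ≠ 0)
    (h : HasMob c (fun j => pr (c * d) ^ (t.getD j 0))) (ht : t.length = c) :
    ∃ ℓ : Emb c d, Exotic ℓ ∧ HasExponents ℓ t := by
  obtain ⟨α, β, γ, δ, hD, hβ, hδ, hT⟩ := h
  have hNe : NeZero (c * d) := ⟨hcd⟩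
  have hne : ∀ ζ : rootsOfUnity c ℂ, γ * ((ζ : ℂˣ) : ℂ) + δ ≠ 0 := by
    intro ζ h0
    obtain ⟨j, hj, rfl⟩ := exists_zc ζ
    have h1 := hT j hj
    rw [zc_val] at h0
    rw [h0, mul_zero] at h1
    apply hD
    have hz : pr c ^ j ≠ 0 := pow_ne_zero _ (pr_ne_zero _)
    apply mul_left_cancel₀ hz
    linear_combination (α * pr c ^ j) * h0 - (γ * pr c ^ j) * h1
  have hroot : ∀ ζ : rootsOfUnity c ℂ,
      ((α * ((ζ : ℂˣ) : ℂ) + β) / (γ * ((ζ : ℂˣ) : ℂ) + δ)) ^ (c * d) = 1 := by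
    intro ζ
    have h0 := hne ζ
    obtain ⟨j, hj, rfl⟩ := exists_zc ζ
    have h1 := hT j hj
    rw [zc_val] at h0 ⊢
    rw [h1, mul_div_assoc, div_self h0, mul_one]
    change (pr (c * d) ^ (t.getD j 0)) ^ (c * d) = 1
    rw [← pow_mul, mul_comm (t.getD j 0), pow_mul, (pr_prim hcd).pow_eq_one, one_pow]
  let ℓ : Emb c d := fun ζ => rootsOfUnity.mkOfPowEq _ (hroot ζ)
  have hval : ∀ ζ : rootsOfUnity c ℂ, ((ℓ ζ : ℂˣ) : ℂ) =
      (α * ((ζ : ℂˣ) : ℂ) + β) / (γ * ((ζ : ℂˣ) : ℂ) + δ) := fun ζ => rfl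
  refine ⟨ℓ, ⟨?_, α, β, γ, δ, hD, hβ, hδ, fun ζ => ⟨hne ζ, (hval ζ).symm⟩⟩, ?_⟩
  · intro ζ ζ' h
    have h1 : ((ℓ ζ : ℂˣ) : ℂ) = ((ℓ ζ' : ℂˣ) : ℂ) := by rw [h]
    rw [hval, hval, div_eq_div_iff (hne ζ) (hne ζ')] at h1
    have h2 : (α * δ - β * γ) * (((ζ : ℂˣ) : ℂ) - ((ζ' : ℂˣ) : ℂ)) = 0 := by
      linear_combination h1
    have h3 := (mul_eq_zero.1 h2).resolve_left hD
    apply Subtype.ext
    apply Units.ext
    linear_combination h3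
  · rw [hasExponents_iff]
    refine ⟨ht, fun j hj => ?_⟩
    have h0 := hne (zc c ^ j)
    rw [W, hval, zc_val]
    rw [zc_val] at h0
    rw [hT j hj, mul_div_assoc, div_self h0, mul_one]

end

/-- **Classification of the exotic embeddings of roots of unity.**
(1) Every standard tuple of exponents is realised by an exotic embedding.
(2) For `c ≥ 4` and `d ≥ 1` every exotic embedding `μ_c → μ_{cd}` is equivalent to an embedding
with a standard tuple of exponents, and that standard tuple is unique. -/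
theorem result :
    (∀ (c d : ℕ) (t : List ℕ), t ∈ Standard c d →
      ∃ ℓ : Emb c d, Exotic ℓ ∧ HasExponents ℓ t) ∧
    (∀ (c d : ℕ), 4 ≤ c → 1 ≤ d → ∀ ℓ : Emb c d, Exotic ℓ →
      ∃! t : List ℕ, t ∈ Standard c d ∧ ∃ ℓ' : Emb c d, Equivalent ℓ ℓ' ∧ HasExponents ℓ' t) := by
  refine ⟨?_, ?_⟩
  · intro c d t ht
    have hstd : Std c d t := ht
    obtain ⟨-, z2, z3, z4⟩ := hstd.zero
    have hc : 0 < c := by omega
    have : NeZero c := ⟨hc.ne'⟩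
    exact exotic_of_exists (Nat.mul_pos hc z3).ne' (exists_all hstd) z2
  · intro c d hc hd ℓ hℓ
    have hc0 : 0 < c := by omega
    have : NeZero c := ⟨hc0.ne'⟩
    have hcd : c * d ≠ 0 := (Nat.mul_pos hc0 hd).ne'
    obtain ⟨v, t, hrel, ht, hv⟩ := class_all hc hd (good_of_exotic hd ℓ hℓ) (W_pow ℓ)
    obtain ⟨ℓ', hℓ', hW⟩ := exists_of_srel ℓ hcd hrel
    refine ⟨t, ⟨ht, ℓ', hℓ', ?_⟩, ?_⟩
    · rw [hasExponents_iff, hW]
      exact ⟨ht.zero.2.1, hv⟩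
    · rintro t' ⟨ht', ℓ'', hℓ'', hexp⟩
      have h1 := srel_of_equivalent hℓ'
      have h2 := srel_of_equivalent hℓ''
      rw [hasExponents_iff] at hexp
      have h3 : SRel (c * d) (W ℓ') (W ℓ'') :=
        (h1.symm hc0 (W_per ℓ) (Nat.mul_pos hc0 hd)).trans h2
      have ht'' : Std c d t' := ht'
      exact (unique_all h3 (W_per ℓ') ht ht'' (by rw [hW]; exact hv) hexp.2).symm

end Pool.Agent.Results.MP_eba27c_nt.ExoticClassification
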